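import Pool.Agent.Y262.EX.Stm

/-!
# The surface as a quotient
-/

set_option autoImplicit false

open Set Filter Topology MeasureTheory
open scoped ContDiff ComplexConjugate Real

noncomputable section

namespace Pool.Agent.Y338.EX

open Pool.Agent.Y262.EG Pool.Agent.Y262.EX

variable {G : Type} [Group G] {Ω : Set ℂ} {a : G → ℂ → ℂ}

/-- the action on the subtype -/
def actS (hA : Act G Ω a) : MulAction G Ω where
  smul g x := ⟨a g x, hA.maps g x x.2⟩
  one_smul x := Subtype.ext (hA.one x x.2)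
  mul_smul g h x := Subtype.ext (hA.mul g h x x.2)

lemma cont_at (hA : Act G Ω a) (γ : G) {z : ℂ} (hz : z ∈ Ω) : ContinuousAt (a γ) z :=
  ((hA.hol γ).differentiableAt (hA.opn.mem_nhds hz)).continuousAt

/-- a point has a neighbourhood in which no two different points are equivalent -/
lemma loc_inj (hA : Act G Ω a) {z : ℂ} (hz : z ∈ Ω) : ∃ r : ℝ, 0 < r ∧ Metric.ball z r ⊆ Ω ∧
    ∀ u ∈ Metric.ball z r, ∀ v ∈ Metric.ball z r, (∃ γ, a γ u = v) → u = v := by
  obtain ⟨r0, hr0, hball⟩ := Metric.nhds_basis_closedBall.mem_iff.mp (hA.opn.mem_nhds hz)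
  have hF := hA.fin (Metric.closedBall z r0) (isCompact_closedBall z r0) hball
  set F : Set G := {γ | (a γ '' Metric.closedBall z r0 ∩ Metric.closedBall z r0).Nonempty} with hFd
  have h1 : ∀ γ : G, ∃ ρ : ℝ, 0 < ρ ∧ ∀ r ≤ ρ, ∀ u ∈ Metric.ball z r, a γ u ∈ Metric.ball z r →
      a γ z = z := by
    intro γ
    by_cases hγ : a γ z = z
    · exact ⟨1, one_pos, fun _ _ _ _ _ => hγ⟩
    · have hd : 0 < dist (a γ z) z := dist_pos.mpr hγ
      obtain ⟨ρ, hρ, h2⟩ := Metric.continuousAt_iff.mp (cont_at hA γ hz) (dist (a γ z) z / 2)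
        (by positivity)
      refine ⟨min ρ (dist (a γ z) z / 2), lt_min hρ (by positivity), fun r hr u hu hau => ?_⟩
      exfalso
      have h3 : dist (a γ u) (a γ z) < dist (a γ z) z / 2 :=
        h2 (lt_of_lt_of_le (Metric.mem_ball.mp hu) (le_trans hr (min_le_left _ _)))
      have h4 : dist (a γ u) z < dist (a γ z) z / 2 :=
        lt_of_lt_of_le (Metric.mem_ball.mp hau) (le_trans hr (min_le_right _ _))
      have h5 : dist (a γ z) z ≤ dist (a γ z) (a γ u) + dist (a γ u) z := dist_triangle _ _ _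
      rw [dist_comm (a γ z) (a γ u)] at h5
      linarith
  choose ρ hρ hρ2 using h1
  have h2 : ∀ᶠ r in 𝓝[>] (0 : ℝ), ∀ γ ∈ F, r ≤ ρ γ := by
    rw [Filter.eventually_all_finite hF]
    intro γ _
    filter_upwards [Ioo_mem_nhdsGT (hρ γ)] with r hr using hr.2.le
  obtain ⟨r, hr1, hr2⟩ := (h2.and (Ioo_mem_nhdsGT hr0)).exists
  have hsub : Metric.ball z r ⊆ Metric.closedBall z r0 :=
    Metric.ball_subset_closedBall.trans (Metric.closedBall_subset_closedBall hr2.2.le)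
  refine ⟨r, hr2.1, hsub.trans hball, ?_⟩
  rintro u hu v hv ⟨γ, hγ⟩
  have hγF : γ ∈ F := ⟨v, ⟨u, hsub hu, hγ⟩, hsub hv⟩
  have h3 : a γ z = z := hρ2 γ r (hr1 γ hγF) u hu (by rw [hγ]; exact hv)
  have h4 := hA.free γ z hz h3 u (hball (hsub hu))
  rw [← h4, hγ]

theorem qM : StTop → StQM := by
  intro hT G _ Ω a hA
  letI act : MulAction G Ω := actS hA
  have hsm : ∀ (g : G) (x : Ω), ((g • x : Ω) : ℂ) = a g x := fun g x => rfl
  have hloc : LocallyCompactSpace Ω := hA.opn.locallyCompactSpace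
  have hcont : ∀ g : G, Continuous fun x : Ω => g • x := by
    intro g
    refine Continuous.subtype_mk (f := fun x : Ω => a g x) ?_ _
    exact continuousOn_iff_continuous_domRestrict.mp (hA.hol g).continuousOn
  have hfin : ∀ K : Set Ω, IsCompact K →
      {g : G | ((fun x : Ω => g • x) '' K ∩ K).Nonempty}.Finite := by
    intro K hK
    refine (hA.fin (Subtype.val '' K) (hK.image continuous_subtype_val) ?_).subset ?_
    · rintro _ ⟨x, _, rfl⟩
      exact x.2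
    · rintro g ⟨y, ⟨x, hx, hxy⟩, hy⟩
      refine ⟨(y : ℂ), ⟨(x : ℂ), ⟨x, hx, rfl⟩, ?_⟩, ⟨y, hy, rfl⟩⟩
      rw [← hxy]
      rfl
  have hcpt : ∃ K : Set Ω, IsCompact K ∧ ∀ x : Ω, ∃ g : G, g • x ∈ K := by
    obtain ⟨K, hK, hKO, hKc⟩ := hA.cpt
    refine ⟨Subtype.val ⁻¹' K, ?_, ?_⟩
    · rw [Subtype.isCompact_iff, Subtype.image_preimage_coe, inter_eq_self_of_subset_right hKO]
      exact hK
    · intro x
      obtain ⟨γ, hγ⟩ := hKc x x.2
      exact ⟨γ, hγ⟩
  obtain ⟨Q, mQ, cQ, p, hc, ho, hs, hr⟩ := hT Ω G hcont hfin hcpt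
  obtain ⟨z0, hz0⟩ := hA.ne
  classical
  set pr : ℂ → Q := fun z => if h : z ∈ Ω then p ⟨z, h⟩ else p ⟨z0, hz0⟩ with hprd
  have hpr : ∀ (z : ℂ) (h : z ∈ Ω), pr z = p ⟨z, h⟩ := fun z h => by simp only [hprd, h, dite_true]
  have hcon : ContinuousOn pr Ω := by
    rw [continuousOn_iff_continuous_domRestrict]
    have : Ω.domRestrict pr = p := by
      funext x
      exact hpr x x.2
    rw [this]
    exact hc
  have hsur : pr '' Ω = univ := by
    rw [eq_univ_iff_forall]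
    intro x
    obtain ⟨y, rfl⟩ := hs x
    exact ⟨y, y.2, hpr y y.2⟩
  have hrel : ∀ z ∈ Ω, ∀ w ∈ Ω, (pr z = pr w ↔ ∃ γ, a γ z = w) := by
    intro z hz w hw
    rw [hpr z hz, hpr w hw, hr]
    constructor
    · rintro ⟨g, hg⟩
      exact ⟨g, by rw [← hsm g ⟨z, hz⟩, hg]⟩
    · rintro ⟨g, hg⟩
      exact ⟨g, Subtype.ext (by rw [hsm]; exact hg)⟩
  refine ⟨Q, mQ, cQ, pr, hcon, ?_, hsur, hrel, ?_, ?_⟩
  · intro O hO hOs
    have : pr '' O = p '' (Subtype.val ⁻¹' O) := by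
      ext x
      constructor
      · rintro ⟨z, hz, rfl⟩
        exact ⟨⟨z, hOs hz⟩, hz, (hpr z (hOs hz)).symm⟩
      · rintro ⟨z, hz, rfl⟩
        exact ⟨z, hz, hpr z z.2⟩
    rw [this]
    exact ho _ (hO.preimage continuous_subtype_val)
  · intro z hz
    obtain ⟨r, hr0, hrO, hinj⟩ := loc_inj hA hz
    refine ⟨r, hr0, hrO, fun u hu v hv huv => ?_⟩
    exact hinj u hu v hv ((hrel u (hrO hu) v (hrO hv)).mp huv)
  · rw [← hsur]
    exact hA.conn.image _ hcon

end Pool.Agent.Y338.EX
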